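import Mathlib

/-!
# From `n ∣ Σ binom(n-1,b)^r u_b` to `n ∣ Σ (-1)^(rb) u_b`
-/

namespace Pool.Agent.Q267.Multi

open Finset

/-- signed binomials `∏_{j ≤ b} (1 - n/j)` -/
def PP (n b : ℕ) : ℤ := (-1) ^ b * ((n - 1).choose b : ℤ)

lemma PP_zero (n : ℕ) : PP n 0 = 1 := by simp [PP]

lemma PP_succ {n : ℕ} (hn : 1 ≤ n) (b : ℕ) :
    PP n (b + 1) * ((b + 1 : ℕ) : ℤ) = PP n b * (((b + 1 : ℕ) : ℤ) - n) := by
  unfold PP
  rcases le_or_gt b (n - 1) with h | h
  · have h1 := Nat.choose_succ_right_eq (n - 1) b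
    have h2 : (((n - 1).choose (b + 1) : ℕ) : ℤ) * ((b : ℤ) + 1) =
        ((n - 1).choose b : ℤ) * ((n : ℤ) - 1 - b) := by
      have h3 := congrArg (Nat.cast : ℕ → ℤ) h1
      push_cast [Nat.cast_sub h, Nat.cast_sub hn] at h3
      exact h3
    push_cast
    rw [pow_succ]
    linear_combination (-(-1 : ℤ) ^ b) * h2
  · rw [Nat.choose_eq_zero_of_lt (by omega), Nat.choose_eq_zero_of_lt (by omega)]
    simp

/-- products of the `j ≤ b` prime to `p` -/
def QQ (p b : ℕ) (z : ℤ) : ℤ := ∏ j ∈ (range b).filter (fun j => ¬ p ∣ j + 1), (((j + 1 : ℕ) : ℤ) - z)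

lemma QQ_succ_of_dvd {p b : ℕ} (h : p ∣ b + 1) (z : ℤ) : QQ p (b + 1) z = QQ p b z := by
  unfold QQ
  rw [range_add_one, filter_insert, if_neg (not_not.2 h)]

lemma QQ_succ_of_not_dvd {p b : ℕ} (h : ¬ p ∣ b + 1) (z : ℤ) :
    QQ p (b + 1) z = (((b + 1 : ℕ) : ℤ) - z) * QQ p b z := by
  unfold QQ
  rw [range_add_one, filter_insert, if_pos h, prod_insert (by simp)]

lemma PP_eq {p n' : ℕ} (hp : p.Prime) (hn : 1 ≤ n') (b : ℕ) :
    PP (p * n') b * QQ p b 0 = PP n' (b / p) * QQ p b ((p * n' : ℕ) : ℤ) := by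
  have hpos : 1 ≤ p * n' := Nat.mul_pos hp.pos hn
  induction b with
  | zero =>
    rw [Nat.zero_div, PP_zero, PP_zero]
    simp [QQ]
  | succ b ih =>
    by_cases h : p ∣ b + 1
    · rw [QQ_succ_of_dvd h, QQ_succ_of_dvd h]
      obtain ⟨j, hj⟩ := h
      have hj0 : 1 ≤ j := by
        rcases Nat.eq_zero_or_pos j with h0 | h0
        · rw [h0] at hj
          omega
        · exact h0
      have h1 : (b + 1) / p = j := by
        rw [hj, Nat.mul_div_cancel_left _ hp.pos]
      have h2 : b / p = j - 1 := by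
        have h3 : b = (p - 1) + p * (j - 1) := by
          obtain ⟨i, rfl⟩ : ∃ i, j = i + 1 := ⟨j - 1, by omega⟩
          obtain ⟨q, rfl⟩ : ∃ q, p = q + 1 := ⟨p - 1, by have := hp.pos; omega⟩
          simp only [Nat.add_sub_cancel]
          have : b + 1 = (q + 1) * i + q + 1 := by rw [hj]; ring
          omega
        rw [h3, Nat.add_mul_div_left _ _ hp.pos, Nat.div_eq_of_lt (by have := hp.pos; omega),
          zero_add]
      rw [h1]
      rw [h2] at ih
      have e1 := PP_succ hpos b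
      have e2 := PP_succ hn (j - 1)
      rw [Nat.sub_add_cancel hj0] at e2
      rw [hj] at e1 ⊢
      have hjz : (j : ℤ) ≠ 0 := by exact_mod_cast (by omega : j ≠ 0)
      have hpz : (p : ℤ) ≠ 0 := by exact_mod_cast hp.ne_zero
      apply mul_right_cancel₀ (mul_ne_zero hpz hjz)
      push_cast at e1 e2 ih ⊢
      linear_combination (QQ p b 0) * e1 + ((p : ℤ) * (j : ℤ) - p * n') * ih -
        (QQ p b (p * n')) * p * e2
    · rw [QQ_succ_of_not_dvd h, QQ_succ_of_not_dvd h]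
      have h1 : (b + 1) / p = b / p := by
        rw [Nat.succ_div, if_neg h, add_zero]
      rw [h1]
      have e1 := PP_succ hpos b
      push_cast at e1 ih ⊢
      linear_combination (QQ p b 0) * e1 + ((b : ℤ) + 1 - p * n') * ih

lemma QQ_modEq (p b : ℕ) (z w : ℤ) (h : w ∣ z) : w ∣ QQ p b z - QQ p b 0 := by
  induction b with
  | zero => simp [QQ]
  | succ b ih =>
    by_cases h1 : p ∣ b + 1
    · rw [QQ_succ_of_dvd h1, QQ_succ_of_dvd h1]
      exact ih
    · rw [QQ_succ_of_not_dvd h1, QQ_succ_of_not_dvd h1]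
      have h2 : (((b + 1 : ℕ) : ℤ) - z) * QQ p b z - (((b + 1 : ℕ) : ℤ) - 0) * QQ p b 0 =
          ((b + 1 : ℕ) : ℤ) * (QQ p b z - QQ p b 0) - z * QQ p b z := by ring
      rw [h2]
      exact dvd_sub (Dvd.dvd.mul_left ih _) (Dvd.dvd.mul_right h _)

lemma QQ_coprime {p : ℕ} (hp : p.Prime) (b a : ℕ) : IsCoprime ((p : ℤ) ^ a) (QQ p b 0) := by
  apply IsCoprime.pow_left
  unfold QQ
  apply IsCoprime.prod_right
  intro j hj
  rw [mem_filter] at hj
  rw [sub_zero, Nat.isCoprime_iff_coprime]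
  exact (Nat.Prime.coprime_iff_not_dvd hp).2 hj.2

lemma PP_modEq {p n' a : ℕ} (hp : p.Prime) (hn : 1 ≤ n') (ha : p ^ a ∣ p * n') (b : ℕ) :
    ((p : ℤ) ^ a) ∣ PP (p * n') b - PP n' (b / p) := by
  have h1 := PP_eq hp hn b
  have h2 : ((p : ℤ) ^ a) ∣ ((p * n' : ℕ) : ℤ) := by exact_mod_cast ha
  have h3 := QQ_modEq p b _ _ h2
  have h4 : ((p : ℤ) ^ a) ∣ QQ p b 0 * (PP (p * n') b - PP n' (b / p)) := by
    have h5 : QQ p b 0 * (PP (p * n') b - PP n' (b / p)) =
        PP n' (b / p) * (QQ p b ((p * n' : ℕ) : ℤ) - QQ p b 0) := by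
      linear_combination h1
    rw [h5]
    exact Dvd.dvd.mul_left h3 _
  exact (QQ_coprime hp b a).dvd_of_dvd_mul_left h4

lemma PP_last (n : ℕ) : PP n (n - 1) = (-1) ^ (n - 1) := by
  unfold PP
  rw [Nat.choose_self]
  simp

/-- the key lemma -/
theorem key (r : ℕ) (u : ℕ → ℤ)
    (h : ∀ n : ℕ, 1 ≤ n → (n : ℤ) ∣ ∑ b ∈ range n, ((n - 1).choose b : ℤ) ^ r * u b) :
    ∀ n : ℕ, 1 ≤ n → (n : ℤ) ∣ ∑ b ∈ range n, ((-1) ^ b) ^ r * u b := by
  intro n
  induction n using Nat.strong_induction_on with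
  | _ n ih =>
    intro hn
    set t : ℕ → ℤ := fun b => ((-1) ^ b) ^ r * u b with ht
    have hT : ∀ k, 1 ≤ k → k < n → (k : ℤ) ∣ ∑ b ∈ range k, t b := fun k h1 h2 => ih k h2 h1
    rw [Int.natCast_dvd, Nat.dvd_iff_prime_pow_dvd_dvd]
    intro p a hp hpa
    rw [← Int.natCast_dvd]
    rcases Nat.eq_zero_or_pos a with h0 | h0
    · rw [h0]
      simp
    -- `n = p n'`
    obtain ⟨n', hn'⟩ : p ∣ n := dvd_trans (dvd_pow_self p h0.ne') hpa
    have hn1 : 1 ≤ n' := by
      rcases Nat.eq_zero_or_pos n' with h1 | h1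
      · rw [h1] at hn'
        omega
      · exact h1
    push_cast
    set w : ℤ := (p : ℤ) ^ a with hw
    have hwn : w ∣ (n : ℤ) := by rw [hw]; exact_mod_cast hpa
    -- the hypothesis
    have e1 : w ∣ ∑ b ∈ range n, (PP n b) ^ r * t b := by
      have h1 : ∑ b ∈ range n, (PP n b) ^ r * t b =
          ∑ b ∈ range n, ((n - 1).choose b : ℤ) ^ r * u b := by
        refine sum_congr rfl fun b _ => ?_
        simp only [ht, PP]
        rw [mul_pow]
        have h2 : ((-1 : ℤ) ^ b) ^ r * ((-1) ^ b) ^ r = 1 := by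
          rw [← mul_pow, ← mul_pow]
          simp
        linear_combination (((n - 1).choose b : ℤ) ^ r * u b) * h2
      rw [h1]
      exact dvd_trans hwn (h n hn)
    -- replace by the values at `⌊b/p⌋`
    have e2 : w ∣ ∑ b ∈ range n, (PP n' (b / p)) ^ r * t b := by
      have h1 : w ∣ ∑ b ∈ range n, ((PP n b) ^ r - (PP n' (b / p)) ^ r) * t b := by
        refine dvd_sum fun b _ => Dvd.dvd.mul_right ?_ _
        refine dvd_trans ?_ (sub_dvd_pow_sub_pow _ _ r)
        rw [hn'] at hpa ⊢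
        exact PP_modEq hp hn1 hpa b
      have h2 : ∑ b ∈ range n, (PP n' (b / p)) ^ r * t b =
          ∑ b ∈ range n, (PP n b) ^ r * t b -
            ∑ b ∈ range n, ((PP n b) ^ r - (PP n' (b / p)) ^ r) * t b := by
        rw [← sum_sub_distrib]
        refine sum_congr rfl fun b _ => ?_
        ring
      rw [h2]
      exact dvd_sub e1 h1
    -- summation by parts
    have e3 := Finset.sum_range_by_parts (fun b => (PP n' (b / p)) ^ r) t n
    simp only [smul_eq_mul] at e3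
    rw [e3] at e2
    have e4 : w ∣ ∑ i ∈ range (n - 1), ((PP n' ((i + 1) / p)) ^ r - (PP n' (i / p)) ^ r) *
        ∑ j ∈ range (i + 1), t j := by
      refine dvd_sum fun i hi => ?_
      rw [mem_range] at hi
      by_cases hd : p ∣ i + 1
      · obtain ⟨j, hj⟩ := hd
        have hj0 : 1 ≤ j := by
          rcases Nat.eq_zero_or_pos j with h1 | h1
          · rw [h1] at hj
            omega
          · exact h1
        have h1 : (i + 1) / p = j := by
          rw [hj, Nat.mul_div_cancel_left _ hp.pos]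
        have h2 : i / p = j - 1 := by
          have h3 : (i + 1) / p = i / p + if p ∣ i + 1 then 1 else 0 := Nat.succ_div
          rw [if_pos ⟨j, hj⟩] at h3
          rw [h1] at h3
          omega
        rw [h1, h2]
        obtain ⟨s, hs⟩ := hT (i + 1) (by omega) (by omega)
        obtain ⟨c, hc⟩ := sub_dvd_pow_sub_pow (PP n' j) (PP n' (j - 1)) r
        have h4 := PP_succ hn1 (j - 1)
        rw [Nat.sub_add_cancel hj0] at h4
        rw [hs, hc]
        refine dvd_trans hwn ⟨-(PP n' (j - 1)) * c * s, ?_⟩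
        have h5 : ((i + 1 : ℕ) : ℤ) = (p : ℤ) * j := by exact_mod_cast hj
        have h6 : (n : ℤ) = (p : ℤ) * n' := by exact_mod_cast hn'
        rw [h5, h6]
        linear_combination (p : ℤ) * c * s * h4
      · have h1 : (i + 1) / p = i / p := by
          rw [Nat.succ_div, if_neg hd, add_zero]
        rw [h1, sub_self, zero_mul]
        exact dvd_zero _
    have e5 : w ∣ (PP n' ((n - 1) / p)) ^ r * ∑ i ∈ range n, t i := by
      have := dvd_add e2 e4
      rwa [sub_add_cancel] at this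
    have e6 : (n - 1) / p = n' - 1 := by
      have h3 : (n - 1 + 1) / p = (n - 1) / p + if p ∣ n - 1 + 1 then 1 else 0 := Nat.succ_div
      rw [Nat.sub_add_cancel hn, if_pos ⟨n', hn'⟩, hn',
        Nat.mul_div_cancel_left _ hp.pos] at h3
      rw [hn']
      omega
    rw [e6, PP_last] at e5
    have e7 : (((-1 : ℤ) ^ (n' - 1)) ^ r) * (((-1 : ℤ) ^ (n' - 1)) ^ r) = 1 := by
      rw [← mul_pow, ← mul_pow]
      simp
    have e8 : ∑ i ∈ range n, t i = (((-1 : ℤ) ^ (n' - 1)) ^ r) *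
        ((((-1 : ℤ) ^ (n' - 1)) ^ r) * ∑ i ∈ range n, t i) := by
      linear_combination (-(∑ i ∈ range n, t i)) * e7
    rw [e8]
    exact Dvd.dvd.mul_left e5 _

end Pool.Agent.Q267.Multi
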