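import Mathlib
import Pool.Agent.Q267.Multi.Key

/-!
# Sums of powers of multinomial coefficients
-/

namespace Pool.Agent.Q267.Multi

open Finset

/-- `M_{m,n}^{(r)}` -/
def MM (m n r : ℕ) : ℤ :=
  ∑ k ∈ Finset.Nat.antidiagonalTuple m n, (Nat.multinomial Finset.univ k : ℤ) ^ r

/-- weighted by the first part -/
def AA (m n r : ℕ) : ℤ :=
  ∑ k ∈ Finset.Nat.antidiagonalTuple (m + 1) n, (Nat.multinomial Finset.univ k : ℤ) ^ r * (k 0 : ℤ)

lemma multinomial_comp {m : ℕ} (e : Equiv.Perm (Fin m)) (k : Fin m → ℕ) :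
    Nat.multinomial Finset.univ (k ∘ e) = Nat.multinomial Finset.univ k := by
  unfold Nat.multinomial
  have h1 : ∑ i, (k ∘ e) i = ∑ i, k i := Equiv.sum_comp e k
  have h2 : ∏ i, ((k ∘ e) i).factorial = ∏ i, (k i).factorial :=
    Equiv.prod_comp e (fun i => (k i).factorial)
  rw [h1, h2]

lemma sum_part (m n r : ℕ) (i : Fin (m + 1)) :
    ∑ k ∈ Finset.Nat.antidiagonalTuple (m + 1) n,
      (Nat.multinomial Finset.univ k : ℤ) ^ r * (k i : ℤ) = AA m n r := by
  unfold AA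
  refine Finset.sum_bij' (fun k _ => k ∘ Equiv.swap 0 i) (fun k _ => k ∘ Equiv.swap 0 i)
    ?_ ?_ ?_ ?_ ?_
  · intro k hk
    rw [Finset.Nat.mem_antidiagonalTuple] at hk ⊢
    rw [← hk]
    exact Equiv.sum_comp (Equiv.swap 0 i) k
  · intro k hk
    rw [Finset.Nat.mem_antidiagonalTuple] at hk ⊢
    rw [← hk]
    exact Equiv.sum_comp (Equiv.swap 0 i) k
  · intro k _
    funext j
    simp
  · intro k _
    funext j
    simp
  · intro k _
    rw [multinomial_comp, Function.comp_apply, Equiv.swap_apply_left]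

lemma AA_mul (m n r : ℕ) : ((m : ℤ) + 1) * AA m n r = n * MM (m + 1) n r := by
  have h1 : ∑ i : Fin (m + 1), ∑ k ∈ Finset.Nat.antidiagonalTuple (m + 1) n,
      (Nat.multinomial Finset.univ k : ℤ) ^ r * (k i : ℤ) = ((m : ℤ) + 1) * AA m n r := by
    rw [sum_congr rfl fun i _ => sum_part m n r i, sum_const, card_univ, Fintype.card_fin]
    simp
  rw [← h1, sum_comm]
  unfold MM
  rw [mul_sum]
  refine sum_congr rfl fun k hk => ?_
  rw [Finset.Nat.mem_antidiagonalTuple] at hk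
  rw [← mul_sum, mul_comm]
  congr 1
  rw [← hk]
  push_cast
  rfl

lemma multinomial_cons {m : ℕ} (a : ℕ) (k : Fin m → ℕ) :
    Nat.multinomial Finset.univ (Fin.cons a k : Fin (m + 1) → ℕ) =
      (a + ∑ i, k i).choose a * Nat.multinomial Finset.univ k := by
  have h1 := Nat.multinomial_spec (Finset.univ) (Fin.cons a k : Fin (m + 1) → ℕ)
  have h2 := Nat.multinomial_spec (Finset.univ) k
  rw [Fin.prod_univ_succ, Fin.sum_univ_succ] at h1
  simp only [Fin.cons_zero, Fin.cons_succ] at h1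
  have h3 := Nat.add_choose_mul_factorial_mul_factorial a (∑ i, k i)
  rw [← Nat.choose_symm_add] at h3
  have hpos : 0 < a.factorial * ∏ i, (k i).factorial :=
    Nat.mul_pos (Nat.factorial_pos _) (Finset.prod_pos fun i _ => Nat.factorial_pos _)
  apply Nat.eq_of_mul_eq_mul_left hpos
  rw [h1, ← h3, ← h2]
  ring

lemma fiber (m N r : ℕ) (g : ℕ → ℤ) :
    ∑ k ∈ Finset.Nat.antidiagonalTuple (m + 1) N,
      (Nat.multinomial Finset.univ k : ℤ) ^ r * g (k 0) =
    ∑ b ∈ range (N + 1), (N.choose b : ℤ) ^ r * g (N - b) * MM m b r := by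
  unfold MM
  simp only [mul_sum]
  rw [sum_sigma']
  refine Finset.sum_bij' (fun k _ => ⟨N - k 0, Fin.tail k⟩) (fun x _ => Fin.cons (N - x.1) x.2)
    ?_ ?_ ?_ ?_ ?_
  · intro k hk
    rw [Finset.Nat.mem_antidiagonalTuple, Fin.sum_univ_succ] at hk
    rw [mem_sigma, mem_range, Finset.Nat.mem_antidiagonalTuple]
    refine ⟨by simp only; omega, ?_⟩
    show ∑ i, Fin.tail k i = N - k 0
    have : ∑ i, Fin.tail k i = ∑ i : Fin m, k i.succ := rfl
    omega
  · rintro ⟨b, k⟩ hk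
    rw [mem_sigma, mem_range, Finset.Nat.mem_antidiagonalTuple] at hk
    rw [Finset.Nat.mem_antidiagonalTuple, Fin.sum_univ_succ]
    simp only [Fin.cons_zero, Fin.cons_succ] at hk ⊢
    omega
  · intro k hk
    rw [Finset.Nat.mem_antidiagonalTuple, Fin.sum_univ_succ] at hk
    have h1 : N - (N - k 0) = k 0 := by omega
    show (Fin.cons (N - (N - k 0)) (Fin.tail k) : Fin (m + 1) → ℕ) = k
    rw [h1]
    exact Fin.cons_self_tail k
  · rintro ⟨b, k⟩ hk
    rw [mem_sigma, mem_range, Finset.Nat.mem_antidiagonalTuple] at hk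
    simp only at hk
    have h1 : N - (N - b) = b := by omega
    simp only [Fin.cons_zero, Fin.tail_cons, h1]
  · intro k hk
    rw [Finset.Nat.mem_antidiagonalTuple, Fin.sum_univ_succ] at hk
    have hk0 : k 0 ≤ N := by omega
    have h1 : N - (N - k 0) = k 0 := by omega
    have h2 : k 0 + ∑ i, Fin.tail k i = N := hk
    have h3 := multinomial_cons (k 0) (Fin.tail k)
    rw [Fin.cons_self_tail, h2] at h3
    simp only [h1]
    rw [h3, Nat.choose_symm hk0]
    push_cast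
    rw [mul_pow]
    ring

/-- the symmetry identity -/
lemma identity (m N r : ℕ) :
    ∑ b ∈ range (N + 1), (N.choose b : ℤ) ^ r * (((m : ℤ) + 1) * b - m * N) * MM m b r = 0 := by
  have h1 := fiber m N r (fun a => (a : ℤ))
  have h2 := fiber m N r (fun _ => 1)
  have h3 := AA_mul m N r
  have h4 : AA m N r = ∑ b ∈ range (N + 1), (N.choose b : ℤ) ^ r * ((N - b : ℕ) : ℤ) * MM m b r :=
    h1
  have h5 : MM (m + 1) N r = ∑ b ∈ range (N + 1), (N.choose b : ℤ) ^ r * 1 * MM m b r := by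
    rw [← h2]
    unfold MM
    refine sum_congr rfl fun k _ => ?_
    rw [mul_one]
  rw [h4, h5, mul_sum, mul_sum] at h3
  have h6 : ∑ b ∈ range (N + 1), (N.choose b : ℤ) ^ r * (((m : ℤ) + 1) * b - m * N) * MM m b r =
      ∑ b ∈ range (N + 1), (N : ℤ) * ((N.choose b : ℤ) ^ r * 1 * MM m b r) -
      ∑ b ∈ range (N + 1), ((m : ℤ) + 1) *
        ((N.choose b : ℤ) ^ r * ((N - b : ℕ) : ℤ) * MM m b r) := by
    rw [← sum_sub_distrib]
    refine sum_congr rfl fun b hb => ?_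
    rw [mem_range] at hb
    rw [Nat.cast_sub (by omega)]
    ring
  rw [h6, h3, sub_self]

/-- **the theorem** for `m + 1` letters -/
theorem dvd_sum_pow (m n r : ℕ) (hn : 1 ≤ n) :
    (((m : ℤ) + 1) * n) ∣ ∑ k ∈ range n, (-1) ^ (r * k) *
      ((((m : ℤ) + 1) + 1) * k + ((m : ℤ) + 1)) * MM (m + 1) k r := by
  set u : ℕ → ℤ := fun b => ((m : ℤ) + 2) * AA m b r + MM (m + 1) b r with hu
  have h1 : ∀ b : ℕ, ((((m : ℤ) + 1) + 1) * b + ((m : ℤ) + 1)) * MM (m + 1) b r =
      ((m : ℤ) + 1) * u b := by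
    intro b
    simp only [hu]
    linear_combination (-((m : ℤ) + 2)) * AA_mul m b r
  have hkey := key r u (by
    intro N hN
    have h2 := identity (m + 1) (N - 1) r
    rw [Nat.sub_add_cancel hN] at h2
    refine ⟨∑ b ∈ range N, ((N - 1).choose b : ℤ) ^ r * MM (m + 1) b r, ?_⟩
    have hm : ((m : ℤ) + 1) ≠ 0 := by positivity
    apply mul_left_cancel₀ hm
    rw [mul_sum, mul_sum, mul_sum]
    have h3 : ∑ b ∈ range N, ((m : ℤ) + 1) * (((N - 1).choose b : ℤ) ^ r * u b) -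
        ∑ b ∈ range N, ((m : ℤ) + 1) * ((N : ℤ) * (((N - 1).choose b : ℤ) ^ r * MM (m + 1) b r)) =
        0 := by
      rw [← h2, ← sum_sub_distrib]
      refine sum_congr rfl fun b _ => ?_
      have h4 := h1 b
      push_cast [Nat.cast_sub hN]
      linear_combination (-(((N - 1).choose b : ℤ) ^ r)) * h4
    rw [sub_eq_zero] at h3
    rw [h3]) n hn
  obtain ⟨c, hc⟩ := hkey
  refine ⟨c, ?_⟩
  have h5 : ∑ k ∈ range n, (-1) ^ (r * k) *
      ((((m : ℤ) + 1) + 1) * k + ((m : ℤ) + 1)) * MM (m + 1) k r =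
      ((m : ℤ) + 1) * ∑ b ∈ range n, ((-1) ^ b) ^ r * u b := by
    rw [mul_sum]
    refine sum_congr rfl fun b _ => ?_
    rw [mul_assoc, h1, ← pow_mul, mul_comm b r]
    ring
  rw [h5, hc]
  ring

end Pool.Agent.Q267.Multi
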